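import Pool.Agent.H73.SMD.Stmts

/-!
Row EXB of the board smd (MP_e1af46_an), helper85: extension over the boundary.
Steps (1) - (6) are those of the row ASM of the board lpc (helper1).
-/

set_option autoImplicit false

open Set Filter Topology MeasureTheory Metric

namespace Pool.SMD

open Pool.PHS Pool.LPC

/-- A compact Hartogs figure between two open ones. -/
theorem exb_comp (δ : ℝ) (_hδ : 0 < δ) : ∃ Q : Set (ℂ × ℂ), IsCompact Q ∧ Q ⊆ HF δ ∧
    HF (δ / 2) ⊆ Q := by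
  refine ⟨{p | ‖p.1‖ ≤ 1 + δ / 2 ∧ ‖p.2‖ ≤ 1 + δ / 2 ∧ (‖p.2‖ ≤ δ / 2 ∨ 1 - δ / 2 ≤ ‖p.1‖)},
    ?_, ?_, ?_⟩
  · refine Metric.isCompact_of_isClosed_isBounded ?_ ?_
    · have c1 : Continuous fun p : ℂ × ℂ => ‖p.1‖ := continuous_fst.norm
      have c2 : Continuous fun p : ℂ × ℂ => ‖p.2‖ := continuous_snd.norm
      exact (isClosed_le c1 continuous_const).inter
        ((isClosed_le c2 continuous_const).inter
          ((isClosed_le c2 continuous_const).union (isClosed_le continuous_const c1)))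
    · refine (Metric.isBounded_closedBall (x := (0 : ℂ × ℂ)) (r := 1 + δ / 2)).subset ?_
      rintro p ⟨ha, hb, -⟩
      rw [mem_closedBall_zero_iff, Prod.norm_def]
      exact max_le ha hb
  · rintro p ⟨ha, hb, hc⟩
    refine ⟨by linarith, by linarith, ?_⟩
    rcases hc with hc | hc
    · left; linarith
    · right; linarith
  · rintro p ⟨ha, hb, hc⟩
    refine ⟨ha.le, hb.le, ?_⟩
    rcases hc with hc | hc
    · left; exact hc.le
    · right; exact hc.le

/-- Rank at most one. -/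
theorem exb_rank (h : Cn 2 → Cn 2) (z : Cn 2) (hj : jac h z = 0) :
    Module.finrank ℂ (LinearMap.range (fderiv ℂ h z).toLinearMap) ≤ 1 := by
  have hdet : LinearMap.det (fderiv ℂ h z).toLinearMap = 0 := hj
  have hlt := LinearMap.range_lt_top_of_det_eq_zero hdet
  have h3 := Submodule.finrank_lt hlt.ne
  have h4 : Module.finrank ℂ (Cn 2) = 2 := by simp
  rw [h4] at h3
  exact Nat.lt_succ_iff.1 h3

theorem EXB_thm (h1 : LIMStmt) (h2 : ITPStmt) (h3 : CNNStmt) (h4 : HEXStmt) (h5 : LIXStmt)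
    (h6 : RKEStmt) (h7 : RKCStmt) : EXBStmt := by
  intro r f h m Φ δ hr hf hlim hjac hδ hδ1 hΦ hΦH hstar hσ
  set D : Set (Cn 2) := {z | r z < 0} with hD
  have hrc : Continuous r := hr.c1.continuous
  have hDo : IsOpen D := isOpen_lt hrc continuous_const
  obtain ⟨M, hM⟩ := hr.bd.exists_norm_le
  have hit : ∀ j, ProperSelf D (f^[m j]) := fun j => h2 2 D f hf (m j)
  obtain ⟨hgd, hgl⟩ := h1 2 D atTop (fun j => f^[m j]) h M inferInstance hDo
    (fun j => (hit j).hol) (fun j z hz => hM _ ((hit j).maps hz)) (fun z hz => hlim z hz)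
  obtain ⟨hBO, hBc, hHO, hHc, hHne, hHB⟩ := h3 δ hδ hδ1
  have hδ2 : 0 < δ / 2 := by linarith
  have hδ21 : δ / 2 < 1 := by linarith
  obtain ⟨hBO2, hBc2, hHO2, hHc2, hHne2, hHB2⟩ := h3 (δ / 2) hδ2 hδ21
  obtain ⟨Q, hQ, hQH, hHQ⟩ := exb_comp δ hδ
  have hHsub : HF (δ / 2) ⊆ HF δ := hHQ.trans hQH
  have hBsub : BD (δ / 2) ⊆ BD δ := by
    rintro p ⟨ha, hb⟩
    exact ⟨by linarith, by linarith⟩
  have hFex : ∀ j, ∃ G : ℂ × ℂ → Cn 2, DifferentiableOn ℂ G (BD (δ / 2)) ∧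
      EqOn G (fun p => f^[m j] (Φ p)) (HF (δ / 2)) := fun j =>
    h4 2 δ (fun p => f^[m j] (Φ p)) hδ hδ1
      ((hit j).hol.comp (hΦ.mono hHB) (fun p hp => hΦH hp))
  choose F hFd hFe using hFex
  have hΦQc : IsCompact (Φ '' Q) :=
    hQ.image_of_continuousOn (hΦ.continuousOn.mono (hQH.trans hHB))
  have hΦQD : Φ '' Q ⊆ D := by
    rintro _ ⟨q, hq, rfl⟩
    exact hΦH (hQH hq)
  have hunifQ : TendstoUniformlyOn (fun j => f^[m j]) h atTop (Φ '' Q) :=
    (tendstoLocallyUniformlyOn_iff_forall_isCompact hDo).1 hgl _ hΦQD hΦQc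
  have hunifH : TendstoUniformlyOn F (fun p => h (Φ p)) atTop (HF (δ / 2)) := by
    have hu := hunifQ.comp Φ
    have hu' := hu.mono (show HF (δ / 2) ⊆ Φ ⁻¹' (Φ '' Q) from
      fun p hp => ⟨p, hHQ hp, rfl⟩)
    exact hu'.congr (Eventually.of_forall fun j => (fun p hp => (hFe j hp).symm))
  obtain ⟨G, hGd, hGl, hGe⟩ := h5 2 (δ / 2) F (fun p => h (Φ p)) hδ2 hδ21 hFd hunifH
  have hR1 : RankOne G (HF (δ / 2)) :=
    h7 2 D (HF (δ / 2)) h Φ G hDo hHO2 hgd (hΦ.mono (hHsub.trans hHB))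
      (fun p hp => hΦH (hHsub hp)) (fun p hp => hGe hp) (fun z hz => exb_rank h z (hjac z hz))
  have hR2 : RankOne G (BD (δ / 2)) := h6 2 (δ / 2) G hδ2 hδ21 hGd hR1
  have hpt : ∀ p ∈ BD (δ / 2), Tendsto (fun i => F i p) atTop (𝓝 (G p)) :=
    fun p hp => hGl.tendsto_at hp
  -- `F i = f^[m i] ∘ Φ` where `Φ` has values in `D`
  have hFD : ∀ (i : ℕ) (p : ℂ × ℂ), p ∈ BD (δ / 2) → r (Φ p) < 0 → F i p = f^[m i] (Φ p) := by
    intro i p hp hpD
    obtain ⟨u, w⟩ := p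
    have hu : ‖u‖ < 1 + δ / 2 := hp.1
    have hw : ‖w‖ < 1 + δ / 2 := hp.2
    set A : Set ℂ := {w' | ‖w'‖ < 1 + δ / 2 ∧ r (Φ (u, w')) < 0} with hA
    have hAB : ∀ w' ∈ A, ((u, w') : ℂ × ℂ) ∈ BD (δ / 2) := fun w' hw' => ⟨hu, hw'.1⟩
    have hline : Continuous fun w' : ℂ => ((u, w') : ℂ × ℂ) := by fun_prop
    have hAo : IsOpen A := by
      have hb : IsOpen {w' : ℂ | ‖w'‖ < 1 + δ / 2} := isOpen_lt continuous_norm continuous_const
      have hc : ContinuousOn (fun w' : ℂ => r (Φ (u, w'))) {w' : ℂ | ‖w'‖ < 1 + δ / 2} := by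
        refine hrc.comp_continuousOn ((hΦ.continuousOn.comp hline.continuousOn ?_))
        intro w' hw'
        exact hBsub ⟨hu, hw'⟩
      exact hc.isOpen_inter_preimage hb isOpen_Iio
    have hstarA : StarConvex ℝ (0 : ℂ) A := by
      intro w' hw' a b ha hb hab
      rw [smul_zero, zero_add]
      have hb1 : b ≤ 1 := by linarith
      refine ⟨?_, ?_⟩
      · rw [norm_smul, Real.norm_of_nonneg hb]
        have hn : b * ‖w'‖ ≤ 1 * ‖w'‖ := mul_le_mul_of_nonneg_right hb1 (norm_nonneg _)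
        have hw1 := hw'.1
        linarith
      · have hs := hstar (u, w') (hBsub (hAB w' hw')) hw'.2 b hb hb1
        have he : b • w' = (b : ℂ) * w' := by
          rw [Complex.real_smul]
        rw [he]
        exact hs
    have hwA : w ∈ A := ⟨hw, hpD⟩
    have h0A : (0 : ℂ) ∈ A := by
      have hz := hstarA hwA zero_le_one le_rfl (add_zero (1 : ℝ))
      rwa [smul_zero, zero_smul, add_zero] at hz
    have hApre : IsPreconnected A := (hstarA.isPathConnected h0A).isConnected.isPreconnected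
    have hlineD : Differentiable ℂ fun w' : ℂ => ((u, w') : ℂ × ℂ) := by fun_prop
    have hd1 : DifferentiableOn ℂ (fun w' : ℂ => F i (u, w')) A :=
      (hFd i).comp hlineD.differentiableOn hAB
    have hd2 : DifferentiableOn ℂ (fun w' : ℂ => f^[m i] (Φ (u, w'))) A := by
      refine (hit i).hol.comp ((hΦ.mono hBsub).comp hlineD.differentiableOn hAB) ?_
      intro w' hw'
      exact hw'.2
    have hev : (fun w' : ℂ => F i (u, w')) =ᶠ[𝓝 0] fun w' : ℂ => f^[m i] (Φ (u, w')) := by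
      filter_upwards [Metric.ball_mem_nhds (0 : ℂ) hδ2] with w' hw'
      rw [mem_ball_zero_iff] at hw'
      exact hFe i (show ((u, w') : ℂ × ℂ) ∈ HF (δ / 2) from
        ⟨hu, by show ‖w'‖ < 1 + δ / 2; linarith, Or.inl hw'⟩)
    exact (hd1.analyticOnNhd hAo).eqOn_of_preconnected_of_eventuallyEq
      (hd2.analyticOnNhd hAo) hApre h0A hev hwA
  refine ⟨G, hGd, hR2, ?_, ?_⟩
  · intro p hp hpD
    have ht := hlim (Φ p) hpD
    have ht2 : Tendsto (fun i => F i p) atTop (𝓝 (h (Φ p))) :=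
      ht.congr fun i => (hFD i p hp hpD).symm
    exact tendsto_nhds_unique (hpt p hp) ht2
  · intro p hp hp0
    have hFr : ∀ i, r (F i p) = 0 := by
      intro i
      obtain ⟨σ₀, hσ0, hσ1⟩ := hσ p (hBsub hp) hp0.le
      have hs : Tendsto (fun σ : ℝ => ((p.1, p.2 + (σ : ℂ)) : ℂ × ℂ)) (𝓝[>] 0) (𝓝 p) := by
        have hc : Continuous fun σ : ℝ => ((p.1, p.2 + (σ : ℂ)) : ℂ × ℂ) := by fun_prop
        have ht := hc.tendsto 0
        simp only [Complex.ofReal_zero, add_zero] at ht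
        exact ht.mono_left nhdsWithin_le_nhds
      have hBev : ∀ᶠ σ : ℝ in 𝓝[>] 0, ((p.1, p.2 + (σ : ℂ)) : ℂ × ℂ) ∈ BD (δ / 2) :=
        hs.eventually (hBO2.mem_nhds hp)
      have hDev : ∀ᶠ σ : ℝ in 𝓝[>] 0, r (Φ (p.1, p.2 + (σ : ℂ))) < 0 := by
        filter_upwards [Ioo_mem_nhdsGT hσ0] with σ hσm
        exact hσ1 σ hσm.1 hσm.2
      have hΦt : Tendsto (fun σ : ℝ => Φ (p.1, p.2 + (σ : ℂ))) (𝓝[>] 0) (𝓝 (Φ p)) :=
        ((hΦ.continuousOn.continuousAt (hBO.mem_nhds (hBsub hp))).tendsto).comp hs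
      have hFt : Tendsto (fun σ : ℝ => F i (p.1, p.2 + (σ : ℂ))) (𝓝[>] 0) (𝓝 (F i p)) :=
        (((hFd i).continuousOn.continuousAt (hBO2.mem_nhds hp)).tendsto).comp hs
      have hFeq : ∀ᶠ σ : ℝ in 𝓝[>] 0, F i (p.1, p.2 + (σ : ℂ)) =
          f^[m i] (Φ (p.1, p.2 + (σ : ℂ))) := by
        filter_upwards [hBev, hDev] with σ ha hb
        exact hFD i _ ha hb
      have hle : r (F i p) ≤ 0 := by
        have ht : Tendsto (fun σ : ℝ => r (F i (p.1, p.2 + (σ : ℂ)))) (𝓝[>] 0) (𝓝 (r (F i p))) :=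
          (hrc.tendsto _).comp hFt
        refine le_of_tendsto ht ?_
        filter_upwards [hFeq, hDev] with σ ha hb
        rw [ha]
        exact (show r (f^[m i] (Φ (p.1, p.2 + (σ : ℂ)))) < 0 from (hit i).maps hb).le
      refine le_antisymm hle ?_
      by_contra hlt
      rw [not_le] at hlt
      have hN : D ∈ 𝓝 (F i p) := hDo.mem_nhds hlt
      obtain ⟨ρ, hρ, hρD⟩ := Metric.nhds_basis_closedBall.mem_iff.1 hN
      have hC := (hit i).proper (closedBall (F i p) ρ) hρD (isCompact_closedBall _ _)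
      have hcl : Φ p ∈ D ∩ f^[m i] ⁻¹' closedBall (F i p) ρ := by
        refine hC.isClosed.mem_of_tendsto hΦt ?_
        have hball : ∀ᶠ σ : ℝ in 𝓝[>] 0, F i (p.1, p.2 + (σ : ℂ)) ∈ closedBall (F i p) ρ :=
          hFt.eventually (closedBall_mem_nhds _ hρ)
        filter_upwards [hFeq, hDev, hball] with σ ha hb hc
        refine ⟨hb, ?_⟩
        show f^[m i] (Φ (p.1, p.2 + (σ : ℂ))) ∈ closedBall (F i p) ρ
        rw [← ha]
        exact hc
      have hneg : r (Φ p) < 0 := hcl.1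
      linarith
    have ht : Tendsto (fun i => r (F i p)) atTop (𝓝 (r (G p))) := (hrc.tendsto _).comp (hpt p hp)
    have ht0 : Tendsto (fun i => r (F i p)) atTop (𝓝 0) := by
      simp only [hFr]
      exact tendsto_const_nhds
    exact tendsto_nhds_unique ht ht0

end Pool.SMD
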